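import Pool.Agent.H18.N6F.Targets

/-!
# Continuity of the Gram matrix in the flag
-/

set_option autoImplicit false

open Polynomial NumberField IsDedekindDomain Matrix Pool.Agent.H32.QC Pool.Agent.H34.N6
  Pool.Agent.H18.N6F

namespace Pool.Agent.H91.N6F

theorem cont_det {F : Type*} [NormedField F] :
    Continuous fun g : Matrix (Fin 3) (Fin 3) F => g.det :=
  Continuous.matrix_det continuous_id

theorem cont_inv {F : Type*} [NormedField F] (g : Matrix (Fin 3) (Fin 3) F) (hg : g.det ≠ 0) :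
    ContinuousAt (fun g' : Matrix (Fin 3) (Fin 3) F => g'⁻¹) g := by
  have h1 : (fun g' : Matrix (Fin 3) (Fin 3) F => g'⁻¹) = fun g' => g'.det⁻¹ • g'.adjugate := by
    funext g'
    rw [Matrix.inv_def, Ring.inverse_eq_inv']
  rw [h1]
  exact (cont_det.continuousAt.inv₀ hg).smul (Continuous.matrix_adjugate continuous_id).continuousAt

theorem cont_LL {F : Type*} [NormedField F] (g : Matrix (Fin 3) (Fin 3) F) (hg : g.det ≠ 0)
    (i j : Fin 7) : ContinuousAt (fun g' : Matrix (Fin 3) (Fin 3) F => LL g' i j) g := by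
  unfold LL
  split_ifs
  · exact (continuous_id.matrix_elem _ _).continuousAt
  · exact continuousAt_const
  · have h1 := cont_inv g hg
    have h2 : Continuous fun m : Matrix (Fin 3) (Fin 3) F =>
        m ⟨(j : ℕ) - 4, by omega⟩ ⟨(i : ℕ) - 4, by omega⟩ := continuous_id.matrix_elem _ _
    exact h2.continuousAt.comp h1
  · exact continuousAt_const

theorem cont_QL {F : Type*} [NormedField F] (q : Matrix (Fin 7) (Fin 7) F)
    (g : Matrix (Fin 3) (Fin 3) F) (hg : g.det ≠ 0)
    (i j : Fin 7) : ContinuousAt (fun g' : Matrix (Fin 3) (Fin 3) F => QL q g' i j) g := by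
  unfold QL
  simp only [Matrix.mul_apply, Matrix.transpose_apply]
  refine tendsto_finsetSum _ fun a _ => ?_
  refine Filter.Tendsto.mul (tendsto_finsetSum _ fun b _ => ?_) (cont_LL g hg a j)
  exact (cont_LL g hg b i).mul continuousAt_const

theorem cont_gm {F : Type*} [NormedField F] (q : Matrix (Fin 7) (Fin 7) F) (d z : F)
    (g : Matrix (Fin 3) (Fin 3) F) (hg : g.det ≠ 0)
    (i j : Fin 3) :
    ContinuousAt (fun g' : Matrix (Fin 3) (Fin 3) F => gm (QL q g') d z i j) g := by
  unfold gm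
  simp only [dotProduct, mulVec]
  refine tendsto_finsetSum _ fun a _ => ?_
  refine Filter.Tendsto.mul tendsto_const_nhds (tendsto_finsetSum _ fun b _ => ?_)
  exact (cont_QL q g hg a b).mul continuousAt_const

/-- neighbourhoods in the space of matrices -/
theorem ball_of_nhds {F : Type*} [NormedField F] (g : Matrix (Fin 3) (Fin 3) F)
    (s : Set (Matrix (Fin 3) (Fin 3) F)) (hs : s ∈ nhds g) :
    ∃ δ : ℝ, 0 < δ ∧ ∀ g' : Matrix (Fin 3) (Fin 3) F, (∀ i j, ‖g' i j - g i j‖ < δ) →
      g' ∈ s := by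
  obtain ⟨δ, hδ, h⟩ := (@Metric.mem_nhds_iff (Fin 3 → Fin 3 → F) _ g s).mp hs
  refine ⟨δ, hδ, fun g' hg' => h ?_⟩
  refine (dist_pi_lt_iff hδ).mpr ?_
  intro i
  refine (dist_pi_lt_iff hδ).mpr ?_
  intro j
  rw [dist_eq_norm]
  exact hg' i j

theorem pf_CTG : T_CTG := by
  intro F _ q d z g hg ε hε
  have h1 : ∀ᶠ g' : Matrix (Fin 3) (Fin 3) F in nhds g, g'.det ≠ 0 :=
    cont_det.continuousAt.eventually_ne hg
  have h2 : ∀ᶠ g' : Matrix (Fin 3) (Fin 3) F in nhds g, ∀ i j,
      ‖gm (QL q g') d z i j - gm (QL q g) d z i j‖ < ε := by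
    rw [Filter.eventually_all]
    intro i
    rw [Filter.eventually_all]
    intro j
    have h3 := (cont_gm q d z g hg i j).eventually (Metric.ball_mem_nhds _ hε)
    filter_upwards [h3] with g' hg'
    rw [← dist_eq_norm]
    exact hg'
  obtain ⟨δ, hδ, h⟩ := ball_of_nhds g _ (h1.and h2)
  exact ⟨δ, hδ, fun g' hg' => h g' hg'⟩

end Pool.Agent.H91.N6F
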