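import Pool.Agent.H5.QH.All
import Pool.Agent.H18.N6F.Targets

/-!
# Ternary forms are isotropic at almost all finite places
-/

set_option autoImplicit false

open Polynomial NumberField IsDedekindDomain Matrix Pool.Agent.H32.QC Pool.Agent.H34.N6
  Pool.Agent.H18.N6F

namespace Pool.Agent.H91.N6F

theorem pf_FIN : T_FIN := by
  intro K _ _ M hM hdet
  obtain ⟨a, Q, ha, hQ, hD⟩ := Pool.Agent.H5.QH.All.dgn K two_ne_zero 3 M hM hdet
  have hfin := (Pool.Agent.H23.QCF.All.prodFormula K (-(a 0 * a 2)) (-(a 1 * a 2))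
    (neg_ne_zero.mpr (mul_ne_zero (ha 0) (ha 2)))
    (neg_ne_zero.mpr (mul_ne_zero (ha 1) (ha 2)))).1
  have hfin2 : {v : FPl K | hs (Sum.inl v) (-(a 0 * a 2)) (-(a 1 * a 2)) ≠ 1}.Finite :=
    hfin.preimage Sum.inl_injective.injOn
  refine ⟨hfin2.toFinset, fun v hv => ?_⟩
  have hs1 : hs (Sum.inl v) (-(a 0 * a 2)) (-(a 1 * a 2)) = 1 := by
    by_contra hne
    exact hv (hfin2.mem_toFinset.mpr hne)
  have hsol : Sol (ic v (-(a 0 * a 2))) (ic v (-(a 1 * a 2))) := by
    by_contra hne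
    have : hs (Sum.inl v) (-(a 0 * a 2)) (-(a 1 * a 2)) = -1 := by
      show hil (ic v (-(a 0 * a 2))) (ic v (-(a 1 * a 2))) = -1
      unfold hil
      rw [if_neg hne]
    rw [this] at hs1
    norm_num at hs1
  have hc : ic v (a 2) ≠ 0 := (_root_.map_ne_zero (ic v)).mpr (ha 2)
  have hiso : Iso ![ic v (a 0), ic v (a 1), ic v (a 2)] := by
    rw [Pool.Agent.H5.QH.pf_C3 _ _ _ _ hc]
    simpa only [map_neg, map_mul] using hsol
  have hiso2 : Iso fun i => ic v (a i) := by
    have : (fun i => ic v (a i)) = ![ic v (a 0), ic v (a 1), ic v (a 2)] := by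
      funext i
      fin_cases i <;> rfl
    rw [this]
    exact hiso
  have hTI : TI (diagonal fun i => ic v (a i)) 1 :=
    ((Pool.Agent.H5.QH.All.ti1 _ 3 fun i => ic v (a i)).1).mpr hiso2
  have hQ' : IsUnit (Q.map (ic v)).det := by
    have := hQ.map (ic v)
    rwa [RingHom.map_det, RingHom.mapMatrix_apply] at this
  rw [← Pool.Agent.H5.QH.All.inv _ 3 1 (M.map (ic v)) (Q.map (ic v)) hQ']
  have hE : (Q.map (ic v))ᵀ * M.map (ic v) * Q.map (ic v) = diagonal fun i => ic v (a i) := by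
    have h1 := congrArg (fun A : Matrix (Fin 3) (Fin 3) K => A.map (ic v)) hD
    rw [Matrix.map_mul, Matrix.map_mul, Matrix.transpose_map, Matrix.diagonal_map (map_zero _)]
      at h1
    exact h1
  rw [hE]
  exact hTI

end Pool.Agent.H91.N6F
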