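import Pool.Agent.H18.N6F.Targets

/-!
# Change of coordinates: kernel vectors and common zeros
-/

set_option autoImplicit false

open Polynomial NumberField IsDedekindDomain Matrix Pool.Agent.H32.QC Pool.Agent.H34.N6
  Pool.Agent.H18.N6F

namespace Pool.Agent.H91.N6F

theorem cg_dot {F : Type*} [Field F] {n : ℕ} (f B : Matrix (Fin n) (Fin n) F)
    (x y : Fin n → F) :
    x ⬝ᵥ ((Bᵀ * f * B) *ᵥ y) = (B *ᵥ x) ⬝ᵥ (f *ᵥ (B *ᵥ y)) := by
  rw [← mulVec_mulVec, ← mulVec_mulVec, dotProduct_mulVec, vecMul_transpose]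

theorem mulVec_ne {F : Type*} [Field F] {n : ℕ} (B : Matrix (Fin n) (Fin n) F)
    (hB : IsUnit B.det) {x : Fin n → F} (hx : x ≠ 0) : B *ᵥ x ≠ 0 := by
  intro h
  apply hx
  have h1 := congrArg (fun y => B⁻¹ *ᵥ y) h
  simpa [mulVec_mulVec, Matrix.nonsing_inv_mul B hB] using h1

theorem pf_HSB : T_HSB := by
  intro F _ f q B c hB
  refine ⟨?_, ?_, ?_⟩
  · intro h μ x hx hq
    have h1 : Bᵀ *ᵥ (q *ᵥ (B *ᵥ x)) = Bᵀ *ᵥ (μ • (f *ᵥ (B *ᵥ x))) := by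
      rw [← mulVec_mulVec, ← mulVec_mulVec] at hq
      rw [hq, ← mulVec_mulVec, ← mulVec_mulVec, mulVec_smul]
    have hT : IsUnit (Bᵀ).det := by rwa [det_transpose]
    have h2 : q *ᵥ (B *ᵥ x) = μ • (f *ᵥ (B *ᵥ x)) := by
      have h3 := congrArg (fun y => (Bᵀ)⁻¹ *ᵥ y) h1
      rwa [mulVec_mulVec, mulVec_mulVec (μ • (f *ᵥ (B *ᵥ x))), nonsing_inv_mul _ hT, one_mulVec,
        one_mulVec] at h3
    rw [cg_dot]
    exact h μ (B *ᵥ x) (mulVec_ne B hB hx) h2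
  · rintro ⟨x, hx, h1, h2⟩
    have h3 : x ⬝ᵥ (f *ᵥ x) = 0 := by
      rw [add_mulVec, dotProduct_add, smul_mulVec, dotProduct_smul, h1, smul_zero,
        add_zero] at h2
      exact h2
    have hi : IsUnit (B⁻¹).det := by
      rw [det_nonsing_inv]
      exact hB.ringInverse
    have h4 : B *ᵥ (B⁻¹ *ᵥ x) = x := by
      rw [mulVec_mulVec, mul_nonsing_inv _ hB, one_mulVec]
    refine ⟨B⁻¹ *ᵥ x, mulVec_ne _ hi hx, ?_, ?_⟩
    · rw [cg_dot, h4, h3]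
    · rw [cg_dot, h4, h1]
  · rintro ⟨x, hx, h1, h2⟩
    rw [cg_dot] at h1 h2
    refine ⟨B *ᵥ x, mulVec_ne B hB hx, h2, ?_⟩
    rw [add_mulVec, dotProduct_add, smul_mulVec, dotProduct_smul, h2, smul_zero, add_zero, h1]

end Pool.Agent.H91.N6F
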