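import Pool.Agent.H18.N6F.Targets

/-!
# Values of the quartic
-/

set_option autoImplicit false

open Polynomial NumberField IsDedekindDomain Matrix Pool.Agent.H32.QC Pool.Agent.H34.N6
  Pool.Agent.H18.N6F

namespace Pool.Agent.H91.N6F

theorem eval_uu {F : Type*} [Field F] (d z : F) (i : Fin 3) (l : Fin 7) :
    eval z (uu d i l) = uv d z i l := by
  fin_cases i <;> fin_cases l <;> simp [uu, uv]

theorem map_uu {F E : Type*} [Field F] [Field E] (ι : F →+* E) (d : F) (i : Fin 3) (l : Fin 7) :
    (uu d i l).map ι = uu (ι d) i l := by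
  fin_cases i <;> fin_cases l <;> simp [uu, _root_.map_ofNat]

theorem map_uv {F E : Type*} [Field F] [Field E] (ι : F →+* E) (d z : F) (i : Fin 3)
    (l : Fin 7) : ι (uv d z i l) = uv (ι d) (ι z) i l := by
  fin_cases i <;> fin_cases l <;> simp [uv, _root_.map_ofNat]

theorem ent {R S : Type*} [CommRing R] [CommRing S] (φ : R →+* S) {n : ℕ} (u v : Fin n → R)
    (q : Matrix (Fin n) (Fin n) R) :
    φ (u ⬝ᵥ (q *ᵥ v)) = (fun l => φ (u l)) ⬝ᵥ (q.map φ *ᵥ fun l => φ (v l)) := by
  simp only [dotProduct, mulVec, map_sum, map_mul, Matrix.map_apply]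

theorem pf_QEV : T_QEV := by
  intro F _ q d
  refine ⟨?_, ?_, ?_, ?_⟩
  · intro z
    have h1 : eval z (quart q d) = (evalRingHom z) (quart q d) := rfl
    rw [h1, quart, RingHom.map_det]
    congr 1
    ext i j
    rw [RingHom.mapMatrix_apply, Matrix.map_apply, Matrix.of_apply, ent]
    have h2 : ∀ k : Fin 3, (fun l => (evalRingHom z) (uu d k l)) = uv d z k := by
      intro k
      funext l
      exact eval_uu d z k l
    rw [h2, h2]
    have h3 : (q.map C).map (evalRingHom z) = q := by
      ext a b
      simp
    rw [h3]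
    rfl
  · intro E _ ι
    refine ⟨?_, ?_, ?_⟩
    · have h1 : (quart q d).map ι = (mapRingHom ι) (quart q d) := rfl
      rw [h1, quart, quart, RingHom.map_det]
      congr 1
      ext1 i j
      rw [RingHom.mapMatrix_apply, Matrix.map_apply, Matrix.of_apply, Matrix.of_apply, ent]
      have h2 : ∀ k : Fin 3, (fun l => (mapRingHom ι) (uu d k l)) = uu (ι d) k := by
        intro k
        funext l
        exact map_uu ι d k l
      rw [h2, h2]
      have h3 : (q.map C).map (mapRingHom ι) = (q.map ι).map C := by
        ext1 a b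
        simp
      rw [h3]
    · ext i j
      rfl
    · intro z
      ext i j
      rw [Matrix.map_apply]
      unfold gm
      rw [ent]
      have h2 : ∀ k : Fin 3, (fun l => ι (uv d z k l)) = uv (ι d) (ι z) k := by
        intro k
        funext l
        exact map_uv ι d z k l
      rw [h2, h2]
  · intro z
    refine ⟨?_, ?_, ?_⟩ <;>
      simp [gm, uv, dotProduct, mulVec, Fin.sum_univ_succ]
  · intro hq
    have hs : ∀ i j, q i j = q j i := fun i j => by
      have := congrFun (congrFun hq j) i
      simpa [Matrix.transpose_apply] using this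
    refine ⟨?_, ?_⟩
    · ext i j
      exact hs _ _
    · intro z
      ext i j
      rw [Matrix.transpose_apply]
      unfold gm
      rw [dotProduct_mulVec, ← mulVec_transpose, dotProduct_comm, hq.eq]

end Pool.Agent.H91.N6F
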